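import Pool.Agent.H.MP_ae5711_al.Tower

set_option autoImplicit false

namespace Pool.Agent.H.MP_ae5711_al

open Classical Pool.Agent.Lib.helper8.Amen Filter Topology

variable {P : Type} [Group P]

theorem am_ext {Q : Type} [Group Q] (φ : P →* Q) (S : Subgroup P) (h1 : Am (S.map φ))
    (h2 : Am (S ⊓ φ.ker)) : Am S := by
  obtain ⟨MQ, hQ⟩ := h1
  obtain ⟨MN, hN⟩ := h2
  have : ∀ q : Q, ∃ s, q ∈ S.map φ → s ∈ S ∧ φ s = q := by
    intro q
    by_cases h : q ∈ S.map φ
    · obtain ⟨s, h1, h2⟩ := h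
      exact ⟨s, fun _ => ⟨h1, h2⟩⟩
    · exact ⟨1, fun h' => absurd h' h⟩
  choose σ hσ using this
  have b : ∀ f, B01 f → B01 fun q => MN fun n => f (σ q * n) :=
    fun f hf x => hN.mem _ fun n => hf _
  refine ⟨fun f => MQ fun q => MN fun n => f (σ q * n), fun f hf => hQ.mem _ (b f hf), ?_, ?_,
    ?_, ?_⟩
  · simp only [hN.one, hQ.one]
  · intro f g hf hg hfg
    have e : ∀ x, (MN fun n => f (σ x * n) + g (σ x * n))
        = (MN fun n => f (σ x * n)) + MN fun n => g (σ x * n) :=
      fun x => hN.add _ _ (fun n => hf _) (fun n => hg _) (fun n => hfg _)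
    rw [← hQ.add _ _ (b f hf) (b g hg) (fun x => by beta_reduce; rw [← e]; exact b _ hfg x)]
    simp only [e]
  · intro f g e
    refine hQ.supp _ _ fun x hx => hN.supp _ _ fun n hn => e _ ?_
    exact mul_mem (hσ x hx).1 hn.1
  · intro s hs f hf
    beta_reduce
    rw [← hQ.inv (φ s) ⟨s, hs, rfl⟩ _ (b f hf)]
    refine hQ.supp _ _ fun q hq => ?_
    have hq' : φ s * q ∈ S.map φ := mul_mem ⟨s, hs, rfl⟩ hq
    have m : (σ (φ s * q))⁻¹ * (s * σ q) ∈ S ⊓ φ.ker :=
      ⟨S.mul_mem (S.inv_mem (hσ _ hq').1) (S.mul_mem hs (hσ q hq).1), by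
        show φ _ = 1
        simp [(hσ _ hq').2, (hσ q hq).2]⟩
    rw [← hN.inv _ m (fun n => f (σ (φ s * q) * n)) fun n => hf _]
    simp only [mul_assoc, mul_inv_cancel_left]

theorem am_folner (K : Set P) (T : ℕ → Finset P) (hne : ∀ n, (T n).Nonempty)
    (hT : ∀ n, ∀ x ∈ T n, x ∈ Subgroup.closure K)
    (hF : ∀ s ∈ K, Tendsto (fun n => ((((T n).image (s * ·)) \ T n).card : ℝ) / (T n).card) atTop (𝓝 0)) :
    Am (Subgroup.closure K) := by
  let U : Ultrafilter ℕ := Ultrafilter.of atTop
  have hU : (U : Filter ℕ) ≤ atTop := Ultrafilter.of_le _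
  let M : ℕ → (P → ℝ) → ℝ := fun n f => (∑ x ∈ T n, f x) / (T n).card
  have pos : ∀ n, (0 : ℝ) < (T n).card := fun n => by exact_mod_cast (hne n).card_pos
  have mem : ∀ n f, B01 f → M n f ∈ Set.Icc (0 : ℝ) 1 := by
    intro n f hf
    refine ⟨div_nonneg (Finset.sum_nonneg fun x _ => (hf x).1) (pos n).le, ?_⟩
    rw [div_le_one (pos n)]
    simpa using Finset.sum_le_sum (s := T n) fun x _ => (hf x).2
  have tend : ∀ f, B01 f → Tendsto (fun n => M n f) U (𝓝 (limUnder U fun n => M n f)) := by
    intro f hf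
    obtain ⟨a, -, ha⟩ := isCompact_Icc.ultrafilter_le_nhds (U.map fun n => M n f)
      (by rw [Ultrafilter.coe_map, le_principal_iff, mem_map]
          exact univ_mem' fun n => mem n f hf)
    exact tendsto_nhds_limUnder ⟨a, ha⟩
  refine ⟨fun f => limUnder U fun n => M n f, fun f hf => ?_, ?_, fun f g hf hg hfg => ?_,
    fun f g e => ?_, ?_⟩
  · exact isClosed_Icc.mem_of_tendsto (tend f hf) (Eventually.of_forall fun n => mem n f hf)
  · have : ∀ n, M n (fun _ => 1) = 1 := fun n => by simp [M, (pos n).ne']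
    simp only [this]
    exact tendsto_const_nhds.limUnder_eq
  · apply Tendsto.limUnder_eq
    exact ((tend f hf).add (tend g hg)).congr fun n => by
      simp only [M, Finset.sum_add_distrib, add_div]
  · have : ∀ n, M n f = M n g := fun n => by
      simp only [M]
      rw [Finset.sum_congr rfl fun x hx => e x (hT n x hx)]
    simp only [this]
  · refine inv_closure (fun f => limUnder U fun n => M n f) K fun s hs f hf => ?_
    apply Tendsto.limUnder_eq
    have d : Tendsto (fun n => M n (fun x => f (s * x)) - M n f) atTop (𝓝 0) := by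
      refine squeeze_zero_norm (fun n => ?_) (hF s hs)
      simp only [M]
      rw [← sub_div, Real.norm_eq_abs, abs_div, abs_of_pos (pos n)]
      refine div_le_div_of_nonneg_right ?_ (pos n).le
      rw [← Finset.sum_image (s := T n) (g := (s * ·)) (f := f)
        fun x _ y _ h => mul_left_cancel h]
      set V := (T n).image (s * ·)
      have c : V.card = (T n).card := Finset.card_image_of_injective _ (mul_right_injective s)
      have c2 : (T n \ V).card = (V \ T n).card := Finset.card_sdiff_comm c.symm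
      have e := Finset.sum_sdiff_sub_sum_sdiff (s₁ := T n) (s₂ := V) (f := f)
      have a1 : 0 ≤ ∑ x ∈ V \ T n, f x := Finset.sum_nonneg fun x _ => (hf x).1
      have a2 : 0 ≤ ∑ x ∈ T n \ V, f x := Finset.sum_nonneg fun x _ => (hf x).1
      have a3 : ∑ x ∈ V \ T n, f x ≤ (V \ T n).card := by
        simpa using Finset.sum_le_sum (s := V \ T n) fun x _ => (hf x).2
      have a4 : ∑ x ∈ T n \ V, f x ≤ (V \ T n).card := by
        rw [← c2]
        simpa using Finset.sum_le_sum (s := T n \ V) fun x _ => (hf x).2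
      rw [← e, abs_le]
      constructor <;> linarith
    simpa using (d.mono_left hU).add (tend f hf)

theorem am_finite (S : Subgroup P) [Finite S] : Am S := by
  have hS : (S : Set P).Finite := Set.toFinite _
  rw [← S.closure_eq]
  refine am_folner _ (fun _ => hS.toFinset) (fun _ => ⟨1, by simp⟩) (fun _ x hx => by simpa using hx)
    fun s hs => ?_
  have : hS.toFinset.image (s * ·) \ hS.toFinset = ∅ := by
    rw [Finset.sdiff_eq_empty_iff_subset]
    intro x hx
    obtain ⟨y, hy, rfl⟩ := Finset.mem_image.1 hx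
    simp only [Set.Finite.mem_toFinset] at hy ⊢
    exact mul_mem hs hy
  simp only [this, Finset.card_empty, Nat.cast_zero, zero_div, tendsto_const_nhds]

theorem am_growth (K : Set P) (Bl : ℕ → Finset P) (h0 : ∀ n, 1 ∈ Bl n)
    (hm : ∀ n, Bl n ⊆ Bl (n + 1)) (hT : ∀ n, ∀ x ∈ Bl n, x ∈ Subgroup.closure K)
    (hs : ∀ s ∈ K, ∀ n, ∀ x ∈ Bl n, s * x ∈ Bl (n + 1))
    (hg : ∀ η : ℝ, 0 < η → ∃ C : ℝ, ∀ n : ℕ, ((Bl n).card : ℝ) ≤ C * Real.exp (η * n)) :
    Am (Subgroup.closure K) := by
  have pos : ∀ n, (0 : ℝ) < (Bl n).card := fun n => by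
    exact_mod_cast Finset.card_pos.2 ⟨1, h0 n⟩
  have key : ∀ ε : ℝ, 0 < ε → ∃ n, ((Bl (n + 1)).card : ℝ) ≤ (1 + ε) * (Bl n).card := by
    intro ε hε
    by_contra hc
    push Not at hc
    have l0 : 0 < Real.log (1 + ε) := Real.log_pos (by linarith)
    obtain ⟨C, hC⟩ := hg (Real.log (1 + ε) / 2) (by linarith)
    have low : ∀ n : ℕ, Real.exp (Real.log (1 + ε) * n) ≤ (Bl n).card := by
      intro n
      induction n with
      | zero => simpa using Finset.card_pos.2 ⟨1, h0 0⟩
      | succ n ih =>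
        push_cast
        rw [mul_add, mul_one, Real.exp_add, Real.exp_log (by linarith)]
        nlinarith [hc n]
    obtain ⟨n, hn⟩ := exists_nat_gt (C / (Real.log (1 + ε) / 2))
    rw [div_lt_iff₀ (by linarith)] at hn
    have h1 := (low n).trans (hC n)
    have h2 : Real.exp (Real.log (1 + ε) * n) =
      Real.exp (Real.log (1 + ε) / 2 * n) * Real.exp (Real.log (1 + ε) / 2 * n) := by
      rw [← Real.exp_add]; congr 1; ring
    rw [h2] at h1
    have h3 := le_of_mul_le_mul_right h1 (Real.exp_pos _)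
    have h4 := Real.add_one_le_exp (Real.log (1 + ε) / 2 * n)
    linarith
  choose N hN using fun k : ℕ => key (1 / ((k : ℝ) + 1)) (by positivity)
  refine am_folner K (fun k => Bl (N k)) (fun k => ⟨1, h0 _⟩) (fun k => hT _) fun s h => ?_
  refine squeeze_zero (fun k => by positivity) (fun k => ?_) tendsto_one_div_add_atTop_nhds_zero_nat
  rw [div_le_iff₀ (pos _)]
  have h1 : (Bl (N k)).image (s * ·) \ Bl (N k) ⊆ Bl (N k + 1) \ Bl (N k) := by
    refine Finset.sdiff_subset_sdiff (fun x hx => ?_) subset_rfl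
    obtain ⟨y, hy, rfl⟩ := Finset.mem_image.1 hx
    exact hs s h _ y hy
  have h2 : ((((Bl (N k)).image (s * ·) \ Bl (N k)).card : ℕ) : ℝ) ≤
      ((Bl (N k + 1) \ Bl (N k)).card : ℕ) := by exact_mod_cast Finset.card_le_card h1
  have h3 : (((Bl (N k + 1) \ Bl (N k)).card : ℕ) : ℝ) + (Bl (N k)).card = (Bl (N k + 1)).card := by
    exact_mod_cast Finset.card_sdiff_add_card_eq_card (hm _)
  linarith [hN k]

theorem am_top {S : Subgroup P} (h : Am S) : Am (⊤ : Subgroup S) := by
  obtain ⟨M, h⟩ := h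
  let e : (S → ℝ) → P → ℝ := fun f x => if hx : x ∈ S then f ⟨x, hx⟩ else 0
  have b : ∀ f, B01 f → B01 (e f) := fun f hf x => by
    simp only [e]; split_ifs
    · exact hf _
    · simp
  refine ⟨fun f => M (e f), fun f hf => h.mem _ (b f hf), ?_, fun f g hf hg hfg => ?_,
    fun f g hfg => ?_, fun s _ f hf => ?_⟩
  · exact (h.supp _ _ fun x hx => by simp [e, hx]).trans h.one
  · have : e (fun x => f x + g x) = fun x => e f x + e g x := by
      funext x; simp only [e]; split_ifs <;> simp
    rw [← h.add _ _ (b f hf) (b g hg) (this ▸ b _ hfg), this]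
  · rw [funext fun x => hfg x trivial]
  · rw [← h.inv s s.2 _ (b f hf)]
    refine h.supp _ _ fun x hx => ?_
    simp only [e, hx, mul_mem s.2 hx, dif_pos]
    rfl

theorem am_pi (L : Type) [Finite L] (h : Am (⊤ : Subgroup P)) : Am (⊤ : Subgroup (L → P)) := by
  letI := Fintype.ofFinite L
  have : ∀ s : Finset L, Am (Subgroup.pi ((s : Set L)ᶜ) fun _ => (⊥ : Subgroup P)) := by
    intro s
    induction s using Finset.induction_on with
    | empty =>
      have : (Subgroup.pi (((∅ : Finset L) : Set L)ᶜ) fun _ => (⊥ : Subgroup P)) = ⊥ := by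
        simp [Subgroup.pi_bot]
      rw [this]; exact am_bot
    | insert a s ha ih =>
      refine am_ext (Pi.evalMonoidHom (fun _ => P) a) _ ?_ ?_
      · have : (Subgroup.pi (((insert a s : Finset L) : Set L)ᶜ) fun _ => (⊥ : Subgroup P)).map
            (Pi.evalMonoidHom (fun _ => P) a) = ⊤ := by
          rw [eq_top_iff]
          intro b _
          refine ⟨Pi.mulSingle a b, fun x hx => ?_, by simp⟩
          have : x ≠ a := by rintro rfl; simp at hx
          simp [Pi.mulSingle_eq_of_ne this]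
        rw [this]; exact h
      · have : (Subgroup.pi (((insert a s : Finset L) : Set L)ᶜ) fun _ => (⊥ : Subgroup P)) ⊓
            (Pi.evalMonoidHom (fun _ => P) a).ker =
            Subgroup.pi ((s : Set L)ᶜ) fun _ => (⊥ : Subgroup P) := by
          ext f
          simp only [Subgroup.mem_inf, Subgroup.mem_pi, MonoidHom.mem_ker, Set.mem_compl_iff,
            Finset.mem_coe, Finset.mem_insert, Subgroup.mem_bot, Pi.evalMonoidHom_apply]
          constructor
          · rintro ⟨h1, h2⟩ x hx
            by_cases e : x = a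
            · rw [e, h2]
            · exact h1 x (by tauto)
          · intro h1
            exact ⟨fun x hx => h1 x (by tauto), h1 a ha⟩
        rw [this]; exact ih
  simpa [Subgroup.pi_empty] using this Finset.univ

theorem am_HH {X : ℕ → Type} [∀ k, Group (X k)] [∀ k, Finite (X k)] (r : ∀ k, P →* X k)
    (h : Am (⊤ : Subgroup P)) : Am (HH r) := by
  refine am_iSup_directed _ (Hn_mono r).directed_le fun n => ?_
  refine am_ext (Pi.evalMonoidHom (G X) n) _ (am_finite _) ?_
  have : Hn r n ⊓ (Pi.evalMonoidHom (G X) n).ker = (⊤ : Subgroup (G X n → P)).map (T r n) := by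
    ext γ
    constructor
    · rintro ⟨⟨c, F, hF⟩, h1⟩
      exact ⟨F n, trivial, (eq_T r c hF h1).symm⟩
    · rintro ⟨f, -, rfl⟩
      exact ⟨T_mem r n f, T_le r n f n le_rfl⟩
  rw [this]
  exact (am_pi _ h).map _

end Pool.Agent.H.MP_ae5711_al
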