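import Mathlib

set_option autoImplicit false

namespace Pool.Agent.H.MP_ae5711_al

open Classical
open scoped commutatorElement

def Bad (T : Type) [Group T] : Prop :=
  Group.FG T ∧ Infinite T ∧ ∀ U : Subgroup T, U.FiniteIndex → ∀ g : T, ∃ e, 0 < e ∧ g ^ e ∈ ⁅U, U⁆

def Sec (T G : Type) [Group T] [Group G] : Prop :=
  ∃ R : Subgroup (G × T), (∀ t, ∃ g, (g, t) ∈ R) ∧ ∀ t, (1, t) ∈ R → t = 1

def Good (G : Type) [Group G] : Prop := ∀ (T : Type) [Group T], Bad T → ¬ Sec T G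

variable {T G G' : Type} [Group T] [Group G] [Group G']

lemma Good.inj (f : G →* G') (hf : Function.Injective f) (h : Good G') : Good G := by
  rintro T _ hT ⟨R, h1, h2⟩
  refine h T hT ⟨R.map (f.prodMap (MonoidHom.id T)), fun t => ?_, ?_⟩
  · obtain ⟨g, hg⟩ := h1 t
    exact ⟨f g, _, hg, rfl⟩
  · rintro t ⟨⟨g, s⟩, hg, e⟩
    obtain ⟨e1, e2⟩ := Prod.mk.inj e
    obtain rfl : g = 1 := hf (by simpa using e1)
    obtain rfl : s = t := e2
    exact h2 _ hg

lemma Good.surj (f : G →* G') (hf : Function.Surjective f) (h : Good G) : Good G' := by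
  rintro T _ hT ⟨R, h1, h2⟩
  refine h T hT ⟨R.comap (f.prodMap (MonoidHom.id T)), fun t => ?_, fun t ht => h2 t ?_⟩
  · obtain ⟨g, hg⟩ := h1 t
    obtain ⟨g, rfl⟩ := hf g
    exact ⟨g, hg⟩
  · simpa using ht

lemma good_finite [Finite G] : Good G := by
  rintro T _ hT ⟨R, h1, h2⟩
  choose σ hσ using h1
  have : Function.Injective σ := by
    intro s t e
    have := mul_mem (hσ s) (inv_mem (hσ t))
    rw [e] at this
    exact mul_inv_eq_one.1 (h2 _ (by simpa using this))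
  exact not_finite_iff_infinite.2 hT.2.1 (Finite.of_injective σ this)

lemma good_comm (hc : ∀ a b : G, a * b = b * a) : Good G := by
  rintro T _ ⟨t1, t2, t3⟩ ⟨R, h1, h2⟩
  have c : ∀ s t : T, ⁅s, t⁆ = 1 := by
    intro s t
    obtain ⟨g, hg⟩ := h1 s
    obtain ⟨k, hk⟩ := h1 t
    have := mul_mem (mul_mem (mul_mem hg hk) (inv_mem hg)) (inv_mem hk)
    refine h2 _ ?_
    have e : g * k * g⁻¹ * k⁻¹ = 1 := by rw [hc g k]; group
    simpa [e, commutatorElement_def] using this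
  letI : CommGroup T := { ‹Group T› with mul_comm := fun s t => commutatorElement_eq_one_iff_mul_comm.1 (c s t) }
  have : Finite T := by
    refine CommGroup.finite_of_fg_torsion T fun g => ?_
    obtain ⟨e, h0, he⟩ := t3 ⊤ inferInstance g
    have : ⁅(⊤ : Subgroup T), (⊤ : Subgroup T)⁆ ≤ ⊥ := by
      rw [Subgroup.commutator_le]; intro s _ t _; exact c s t
    exact isOfFinOrder_iff_pow_eq_one.2 ⟨e, h0, this he⟩
  exact not_finite_iff_infinite.2 t2 this

lemma good_ext (N : Subgroup G) [N.Normal] (hN : Good N) (hQ : Good (G ⧸ N)) : Good G := by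
  rintro T _ ⟨t1, t2, t3⟩ ⟨R, h1, h2⟩
  let N' : Subgroup T := (R ⊓ N.prod ⊤).map (MonoidHom.snd G T)
  have mem : ∀ t, t ∈ N' ↔ ∃ n ∈ N, (n, t) ∈ R := by
    intro t
    constructor
    · rintro ⟨⟨n, s⟩, ⟨a, b, -⟩, rfl⟩
      exact ⟨n, b, a⟩
    · rintro ⟨n, a, b⟩
      exact ⟨(n, t), ⟨b, a, trivial⟩, rfl⟩
  haveI : N'.Normal := ⟨fun t ht s => by
    obtain ⟨n, a, b⟩ := (mem t).1 ht
    obtain ⟨g, hg⟩ := h1 s
    exact (mem _).2 ⟨g * n * g⁻¹, Subgroup.Normal.conj_mem inferInstance n a g,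
      mul_mem (mul_mem hg b) (inv_mem hg)⟩⟩
  by_cases hf : Finite (T ⧸ N')
  · haveI : N'.FiniteIndex := Subgroup.finiteIndex_of_finite_quotient
    refine hN N' ⟨inferInstance, ?_, fun U hU g => ?_⟩
      ⟨R.comap (N.subtype.prodMap N'.subtype), fun t => ?_, fun t ht => ?_⟩
    · by_contra hc
      rw [not_infinite_iff_finite] at hc
      exact not_finite_iff_infinite.2 t2 (Finite.of_subgroup_quotient N')
    · have : (U.map N'.subtype).FiniteIndex := ⟨by
        rw [Subgroup.index_map_subtype]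
        exact mul_ne_zero hU.index_ne_zero Subgroup.FiniteIndex.index_ne_zero⟩
      obtain ⟨e, h0, he⟩ := t3 _ this g
      rw [← Subgroup.map_commutator] at he
      obtain ⟨x, hx, ex⟩ := he
      have : x = g ^ e := Subtype.ext ex
      exact ⟨e, h0, this ▸ hx⟩
    · obtain ⟨n, a, b⟩ := (mem t).1 t.2
      exact ⟨⟨n, a⟩, b⟩
    · exact Subtype.ext (h2 _ ht)
  · refine hQ (T ⧸ N') ⟨inferInstance, not_finite_iff_infinite.1 hf, fun U hU g => ?_⟩
      ⟨R.map ((QuotientGroup.mk' N).prodMap (QuotientGroup.mk' N')), fun t => ?_, ?_⟩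
    · obtain ⟨g, rfl⟩ := QuotientGroup.mk'_surjective N' g
      have : (U.comap (QuotientGroup.mk' N')).FiniteIndex := ⟨by
        rw [Subgroup.index_comap_of_surjective _ (QuotientGroup.mk'_surjective N')]
        exact hU.index_ne_zero⟩
      obtain ⟨e, h0, he⟩ := t3 _ this g
      refine ⟨e, h0, ?_⟩
      have := Subgroup.mem_map_of_mem (QuotientGroup.mk' N') he
      rw [Subgroup.map_commutator, map_pow] at this
      exact Subgroup.commutator_mono (Subgroup.map_comap_le _ _) (Subgroup.map_comap_le _ _) this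
    · obtain ⟨t, rfl⟩ := QuotientGroup.mk'_surjective N' t
      obtain ⟨g, hg⟩ := h1 t
      exact ⟨_, _, hg, rfl⟩
    · rintro t ⟨⟨g, s⟩, hg, e⟩
      obtain ⟨e1, e2⟩ := Prod.mk.inj e
      rw [← e2]
      exact (QuotientGroup.eq_one_iff s).2 ((mem s).2 ⟨g, (QuotientGroup.eq_one_iff g).1 e1, hg⟩)

lemma good_union (ι : Type) (F : ι → Subgroup G) (hd : Directed (· ≤ ·) F) (h : ∀ i, Good (F i))
    (ht : (⨆ i, F i) = ⊤) : Good G := by
  rcases isEmpty_or_nonempty ι with hι | hι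
  · have : Subsingleton G := by
      rw [iSup_of_empty] at ht
      have : ∀ a : G, a = 1 := fun a => Subgroup.mem_bot.1 (ht ▸ Subgroup.mem_top a)
      exact ⟨fun a b => by rw [this a, this b]⟩
    exact good_finite
  rintro T _ hT ⟨R, h1, h2⟩
  choose σ hσ using h1
  obtain ⟨S, hS⟩ := hT.1.out
  have : ∃ i, ∀ s ∈ S, σ s ∈ F i := by
    clear hS
    induction S using Finset.induction_on with
    | empty => exact ⟨Classical.arbitrary ι, by simp⟩
    | insert a S _ ih =>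
      obtain ⟨i, hi⟩ := ih
      obtain ⟨j, hj⟩ := (Subgroup.mem_iSup_of_directed hd).1 (ht ▸ Subgroup.mem_top (σ a))
      obtain ⟨k, a1, a2⟩ := hd i j
      refine ⟨k, fun x hx => ?_⟩
      rcases Finset.mem_insert.1 hx with rfl | hx
      · exact a2 hj
      · exact a1 (hi x hx)
  obtain ⟨i, hi⟩ := this
  refine h i T hT ⟨R.comap ((F i).subtype.prodMap (MonoidHom.id T)), fun t => ?_, fun t ht => h2 t ht⟩
  have : Subgroup.closure (S : Set T) ≤
      (R.comap ((F i).subtype.prodMap (MonoidHom.id T))).map (MonoidHom.snd _ _) := by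
    rw [Subgroup.closure_le]
    intro s hs
    exact ⟨(⟨σ s, hi s hs⟩, s), hσ s, rfl⟩
  obtain ⟨⟨g, s⟩, a, rfl⟩ := this (hS ▸ Subgroup.mem_top t)
  exact ⟨g, a⟩

lemma Bad.not_good (h : Bad T) : ¬ Good T := fun hg =>
  hg T h ⟨(MonoidHom.fst T T).eqLocus (MonoidHom.snd T T), fun t => ⟨t, rfl⟩, fun _ ht => Eq.symm ht⟩

end Pool.Agent.H.MP_ae5711_al
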