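import Pool.Agent.H.MP_ae5711_al.Am
import Pool.Agent.H.MP_ae5711_al.EA
import Pool.Agent.H.MP_9eb6b0_al.Growth

set_option autoImplicit false

namespace Pool.Agent.H.MP_ae5711_al

open Classical Pool.Agent.H.MP_9eb6b0_al Pool.Agent.Lib.helper8.Amen
open scoped commutatorElement

variable {A X : Type} [Group A] (D : Dat A X)

lemma GG_perf (hperf : commutator A = ⊤) (i : ℕ) : commutator (GG D i) = ⊤ := by
  have key : ∀ f : A →* GG D i, ∀ a, f a ∈ commutator (GG D i) := by
    intro f a
    have : (commutator A).map f ≤ commutator (GG D i) := by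
      rw [commutator_def, Subgroup.map_commutator]
      exact Subgroup.commutator_mono le_top le_top
    exact this ⟨a, by rw [hperf]; trivial, rfl⟩
  rw [eq_top_iff]
  rintro ⟨g, hg⟩ -
  induction hg using Subgroup.closure_induction with
  | mem x hx =>
    rcases hx with ⟨b, rfl⟩ | ⟨b, rfl⟩
    · exact key ((rA D).codRestrict _ (rA_mem D i)) b
    · exact key ((dB D i).codRestrict _ (dB_mem D i)) b
  | one => exact one_mem _
  | mul x y _ _ hx hy => exact mul_mem hx hy
  | inv x _ hx => exact inv_mem hx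

def alF (u : X → Equiv.Perm (Y A X)) : Y A X → Y A X
  | .base a => .base a
  | .cons z y => .cons z (u z y)

def alH : (X → Equiv.Perm (Y A X)) →* Equiv.Perm (Y A X) :=
  MonoidHom.mk' (fun u => ⟨alF u, alF u⁻¹, fun w => by cases w <;> simp [alF],
    fun w => by cases w <;> simp [alF]⟩) fun u v => Equiv.ext fun w => by
      cases w <;> rfl

omit [Group A] in
lemma alH_base (u : X → Equiv.Perm (Y A X)) (a : A) : alH u (.base a) = .base a := rfl
omit [Group A] in
lemma alH_cons (u : X → Equiv.Perm (Y A X)) (z : X) (y : Y A X) :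
    alH u (.cons z y) = .cons z (u z y) := rfl

omit [Group A] in
lemma alH_single (x : X) (u : Equiv.Perm (Y A X)) : alH (Pi.mulSingle x u) = atH x u := by
  refine Equiv.ext fun w => ?_
  rcases w with a | ⟨z, w⟩
  · rfl
  · rw [alH_cons, atH_cons]
    by_cases h : z = x
    · subst h; simp
    · simp [h]

lemma alH_rA (u : X → Equiv.Perm (Y A X)) (a : A) :
    alH u * rA D a = rA D a * alH fun x => u (D.ρ a x) := by
  refine Equiv.ext fun w => ?_
  cases w <;> rfl

lemma struct (i : ℕ) (g : Equiv.Perm (Y A X)) (hg : g ∈ GG D i) : ∃ (a : A) (u : X → Equiv.Perm (Y A X)),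
    (∀ x, u x ∈ GG D (i + 1)) ∧ (∀ x, ¬ Orb D i x → u x = 1) ∧ g = rA D a * alH u := by
  obtain ⟨w, rfl⟩ := exists_wd D i g hg
  clear hg
  induction w with
  | nil => exact ⟨1, 1, fun _ => one_mem _, fun _ _ => rfl, by simp [ev]⟩
  | cons z w ih =>
    obtain ⟨a, b⟩ := z
    obtain ⟨c, u, h1, h2, h3⟩ := ih
    let v : X → Equiv.Perm (Y A X) :=
      Pi.mulSingle (D.p i) (dB D (i + 1) b) * Pi.mulSingle (D.q i) (rA D b)
    have v1 : ∀ x, v x ∈ GG D (i + 1) := by
      intro x
      simp only [v, Pi.mul_apply, Pi.mulSingle_apply]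
      refine mul_mem ?_ ?_ <;> split_ifs
      exacts [dB_mem D _ b, one_mem _, rA_mem D _ b, one_mem _]
    have v2 : ∀ x, ¬ Orb D i x → v x = 1 := by
      intro x hx
      have e1 : x ≠ D.p i := fun h => hx (h ▸ orb_p D i)
      have e2 : x ≠ D.q i := fun h => hx (h ▸ orb_q D i)
      simp [v, e1, e2]
    refine ⟨a * c, (fun x => v (D.ρ c x)) * u, fun x => mul_mem (v1 _) (h1 x), fun x hx => ?_, ?_⟩
    · rw [Pi.mul_apply, v2 _ (by rwa [orb_iff]), h2 x hx, mul_one]
    · have : dB D i b = alH v := by rw [dB_eq, map_mul, alH_single, alH_single]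
      rw [ev, h3, this, map_mul (rA D), map_mul alH _ u, mul_assoc, mul_assoc, ← mul_assoc (alH v),
        alH_rA, mul_assoc]

lemma pow_struct [Fintype A] (i : ℕ) (g : Equiv.Perm (Y A X)) (hg : g ∈ GG D i) :
    ∃ u : X → Equiv.Perm (Y A X), (∀ x, u x ∈ GG D (i + 1)) ∧ (∀ x, ¬ Orb D i x → u x = 1) ∧
      g ^ Fintype.card A = alH u := by
  obtain ⟨a, u, -, -, h3⟩ := struct D i g hg
  have e : ∀ n, (g ^ n) (.base 1) = .base (a ^ n) := by
    intro n
    induction n with
    | zero => simp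
    | succ n ih => rw [pow_succ', Equiv.Perm.mul_apply, ih, h3, pow_succ']; rfl
  obtain ⟨c, v, k1, k2, k3⟩ := struct D i _ (pow_mem hg (Fintype.card A))
  have := e (Fintype.card A)
  rw [k3, pow_card_eq_one, Equiv.Perm.mul_apply, alH_base, rA_base] at this
  obtain rfl : c = 1 := by simpa using this
  exact ⟨v, k1, k2, by simpa using k3⟩

noncomputable def atG (hperf : commutator A = ⊤) (i : ℕ) (x : X) (hx : Orb D i x) :
    GG D (i + 1) →* GG D i :=
  ((atH x).comp (GG D (i + 1)).subtype).codRestrict _ fun u => branch D hperf i x hx u u.2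

lemma tors [Fintype A] [Fintype X] (hperf : commutator A = ⊤) {Q : Type} [Group Q] [Finite Q] (n : ℕ) :
    ∀ (i : ℕ) (ψ : GG D i →* Q), Nat.card ψ.range < n → ∀ g : GG D i,
      ∃ e, 0 < e ∧ g ^ e ∈ ⁅ψ.ker, ψ.ker⁆ := by
  induction n with
  | zero => intro i ψ h; omega
  | succ n ih =>
    intro i ψ hn g
    by_cases h0 : ψ.ker = ⊤
    · refine ⟨1, one_pos, ?_⟩
      rw [h0, ← commutator_def, GG_perf D hperf]; trivial
    have lt : ∀ x (hx : Orb D i x), (ψ.comp (atG D hperf i x hx)).range < ψ.range := by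
      intro x hx
      refine lt_of_le_of_ne (by rintro _ ⟨u, rfl⟩; exact ⟨_, rfl⟩) fun he => h0 ?_
      obtain ⟨k, hk⟩ : ∃ k, D.ρ k x ≠ x := by
        obtain ⟨k, rfl⟩ := hx
        obtain ⟨h, hh⟩ := D.hq i
        exact ⟨k * h * k⁻¹, by simpa [hh] using (D.pq i).symm⟩
      rw [eq_top_iff, ← GG_perf D hperf, commutator_def, Subgroup.commutator_le]
      intro a _ b _
      let t : GG D i := ⟨rA D k, rA_mem D i k⟩
      obtain ⟨u, hu⟩ : ψ a ∈ (ψ.comp (atG D hperf i x hx)).range := he ▸ ⟨a, rfl⟩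
      obtain ⟨v, hv⟩ : ψ (t⁻¹ * b * t) ∈ (ψ.comp (atG D hperf i x hx)).range := he ▸ ⟨_, rfl⟩
      have e1 : ψ b = ψ (t * atG D hperf i x hx v * t⁻¹) := by
        rw [map_mul, map_mul, ← MonoidHom.comp_apply ψ (atG D hperf i x hx), hv]; simp [mul_assoc]
      have c : Commute (atG D hperf i x hx u) (t * atG D hperf i x hx v * t⁻¹) := by
        refine Subtype.ext ?_
        have := comm_at x _ hk.symm u.1 v.1
        rw [← conj_at] at this
        exact this
      rw [MonoidHom.mem_ker, map_commutatorElement, commutatorElement_eq_one_iff_commute, ← hu, e1]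
      exact c.map ψ
    obtain ⟨u, u1, u2, u3⟩ := pow_struct D i g.1 g.2
    have : ∀ x, ∃ e, 0 < e ∧ atH x (u x ^ e) ∈ ⁅ψ.ker, ψ.ker⁆.map (GG D i).subtype := by
      intro x
      by_cases hx : Orb D i x
      · have c1 : Nat.card (ψ.comp (atG D hperf i x hx)).range < Nat.card ψ.range :=
          Set.Finite.card_lt_card (Set.toFinite _) (lt x hx)
        obtain ⟨e, h1, h2⟩ := ih (i + 1) (ψ.comp (atG D hperf i x hx)) (by omega) ⟨u x, u1 x⟩
        refine ⟨e, h1, atG D hperf i x hx (⟨u x, u1 x⟩ ^ e), ?_, rfl⟩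
        have := Subgroup.mem_map_of_mem (atG D hperf i x hx) h2
        rw [Subgroup.map_commutator, ← MonoidHom.comap_ker] at this
        exact Subgroup.commutator_mono (Subgroup.map_comap_le _ _) (Subgroup.map_comap_le _ _) this
      · exact ⟨1, one_pos, by rw [u2 x hx]; simp⟩
    choose e e1 e2 using this
    refine ⟨Fintype.card A * ∏ x, e x, Nat.mul_pos Fintype.card_pos (Finset.prod_pos fun x _ => e1 x), ?_⟩
    have : alH (u ^ ∏ x, e x) ∈ ⁅ψ.ker, ψ.ker⁆.map (GG D i).subtype := by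
      refine Subgroup.pi_mem_of_mulSingle_mem (H := (⁅ψ.ker, ψ.ker⁆.map (GG D i).subtype).comap alH)
        _ fun x => ?_
      obtain ⟨c, hc⟩ := Finset.dvd_prod_of_mem e (Finset.mem_univ x)
      rw [Subgroup.mem_comap, alH_single, Pi.pow_apply, hc, pow_mul, map_pow]
      exact pow_mem (e2 x) c
    rw [map_pow, ← u3, ← pow_mul] at this
    obtain ⟨y, hy, ey⟩ := this
    have : y = g ^ (Fintype.card A * ∏ x, e x) := Subtype.ext ey
    exact this ▸ hy

theorem bad [Fintype A] [Fintype X] (hperf : commutator A = ⊤) (i : ℕ) : Bad (GG D i) := by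
  refine ⟨(Group.fg_iff_subgroup_fg _).2 ((Subgroup.fg_iff _).2 ⟨_, rfl, Set.toFinite _⟩), ?_,
    fun U hU g => ?_⟩
  · by_contra hc
    rw [not_infinite_iff_finite] at hc
    have hS : (GG D i : Set (Equiv.Perm (Y A X))).Finite := Set.toFinite _
    have h1 := lin D hperf i (hS.toFinset.card + 1)
    have : BF D i (hS.toFinset.card + 1) ⊆ hS.toFinset := by
      intro g hg
      obtain ⟨w, -, rfl⟩ := (mem_BF D i _ g).1 hg
      simpa using ev_mem D i w
    have := Finset.card_le_card this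
    omega
  · obtain ⟨e, h1, h2⟩ := tors D hperf _ i (QuotientGroup.mk' U.normalCore) (Nat.lt_succ_self _) g
    rw [QuotientGroup.ker_mk'] at h2
    exact ⟨e, h1, Subgroup.commutator_mono U.normalCore_le U.normalCore_le h2⟩

theorem am_GG [Fintype A] [Fintype X] : Am (⊤ : Subgroup (GG D 0)) := by
  refine am_top (am_growth _ (BF D 0) (fun n => (mem_BF D 0 n _).2 ⟨[], by simp, rfl⟩)
    (fun n => BF_mono D 0 (by omega)) (fun n g hg => ?_) ?_ (subexp D))
  · obtain ⟨w, -, rfl⟩ := (mem_BF D 0 _ g).1 hg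
    exact ev_mem D 0 w
  · intro s hs n g hg
    obtain ⟨w, h, rfl⟩ := (mem_BF D 0 _ g).1 hg
    rcases hs with ⟨b, rfl⟩ | ⟨b, rfl⟩
    · exact (mem_BF D 0 _ _).2 ⟨(b, 1) :: w, by simpa using h, by simp [ev]⟩
    · exact (mem_BF D 0 _ _).2 ⟨(1, b) :: w, by simpa using h, by simp [ev]⟩

def dep : Y A X → ℕ
  | .base _ => 0
  | .cons _ y => dep y + 1

lemma dep_GG : ∀ (y : Y A X) (i : ℕ) (g : Equiv.Perm (Y A X)), g ∈ GG D i → dep (g y) = dep y := by
  intro y
  induction y with
  | base a =>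
    intro i g hg
    obtain ⟨c, u, -, -, rfl⟩ := struct D i g hg
    rfl
  | cons x y ih =>
    intro i g hg
    obtain ⟨c, u, h, -, rfl⟩ := struct D i g hg
    rw [Equiv.Perm.mul_apply, alH_cons, rA_cons, dep, dep, ih _ _ (h x)]

omit [Group A] in
lemma dep_fin [Finite A] [Finite X] (k : ℕ) : {y : Y A X | dep y = k}.Finite := by
  induction k with
  | zero =>
    refine (Set.finite_range Y.base).subset fun y hy => ?_
    cases y with
    | base a => exact ⟨a, rfl⟩
    | cons x y => simp [dep] at hy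
  | succ k ih =>
    refine (Set.Finite.image2 Y.cons (Set.toFinite Set.univ) ih).subset fun y hy => ?_
    cases y with
    | base a => simp [dep] at hy
    | cons x y => exact ⟨x, trivial, y, by simpa [dep] using hy, rfl⟩

def lev (k : ℕ) : SubMulAction (GG D 0) (Y A X) where
  carrier := {y | dep y = k}
  smul_mem' g y hy := (dep_GG D y 0 g.1 g.2).trans hy

instance [Finite A] [Finite X] (k : ℕ) : Finite (lev D k) := (dep_fin k).to_subtype

def XX (k : ℕ) : Type := (MulAction.toPermHom (GG D 0) (lev D k)).range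

instance (k : ℕ) : Group (XX D k) := inferInstanceAs (Group (MulAction.toPermHom (GG D 0) (lev D k)).range)
instance [Finite A] [Finite X] (k : ℕ) : Finite (XX D k) :=
  inferInstanceAs (Finite (MulAction.toPermHom (GG D 0) (lev D k)).range)

def rr (k : ℕ) : GG D 0 →* XX D k := (MulAction.toPermHom (GG D 0) (lev D k)).rangeRestrict

lemma rr_surj (k : ℕ) : Function.Surjective (rr D k) := MonoidHom.rangeRestrict_surjective _

lemma rr_sep (b : GG D 0) (hb : b ≠ 1) : ∃ k, rr D k b ≠ 1 := by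
  by_contra hc
  push Not at hc
  refine hb (Subtype.ext (Equiv.ext fun y => ?_))
  have h1 : MulAction.toPermHom (GG D 0) (lev D (dep y)) b = 1 := congrArg Subtype.val (hc (dep y))
  exact congrArg Subtype.val (Equiv.congr_fun h1 ⟨y, rfl⟩)

end Pool.Agent.H.MP_ae5711_al
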