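import Pool.Agent.Lib.helper8.Amen

set_option autoImplicit false

namespace Pool.Agent.H.MP_ae5711_al

open Classical Pool.Agent.Lib.helper8.Amen
open scoped commutatorElement

def G (X : ℕ → Type) : ℕ → Type
  | 0 => Unit
  | k + 1 => RegularWreathProduct (X k) (G X k)

variable (X : ℕ → Type) [∀ k, Group (X k)]

instance grp : ∀ k, Group (G X k)
  | 0 => inferInstanceAs (Group Unit)
  | k + 1 => @RegularWreathProduct.instGroup (X k) (G X k) _ (grp k)

omit [∀ k, Group (X k)] in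
instance fin [∀ k, Finite (X k)] : ∀ k, Finite (G X k)
  | 0 => inferInstanceAs (Finite Unit)
  | k + 1 => haveI := fin k; Finite.of_equiv _ (RegularWreathProduct.equivProd (X k) (G X k)).symm

variable {X}

def lf {k : ℕ} (a : G X (k + 1)) : G X k → X k := RegularWreathProduct.left a
def rt {k : ℕ} : G X (k + 1) →* G X k := RegularWreathProduct.rightHom
def mk {k : ℕ} (c : G X k → X k) (g : G X k) : G X (k + 1) := RegularWreathProduct.mk c g

omit [∀ k, Group (X k)] in
lemma lf_mk {k : ℕ} (c : G X k → X k) (g : G X k) : lf (mk c g) = c := rfl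
lemma rt_mk {k : ℕ} (c : G X k → X k) (g : G X k) : rt (mk c g) = g := rfl
lemma lf_mul {k : ℕ} (a b : G X (k + 1)) (x : G X k) :
    lf (a * b) x = lf a x * lf b ((rt a)⁻¹ * x) := rfl
lemma lf_inv {k : ℕ} (a : G X (k + 1)) (x : G X k) : lf a⁻¹ x = (lf a (rt a * x))⁻¹ := rfl
lemma lf_one {k : ℕ} (x : G X k) : lf (1 : G X (k + 1)) x = 1 := rfl
lemma G_ext {k : ℕ} (a b : G X (k + 1)) (h1 : ∀ x, lf a x = lf b x) (h2 : rt a = rt b) : a = b :=
  RegularWreathProduct.ext (funext h1) h2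
lemma G_zero (a b : G X 0) : a = b := rfl

abbrev W (X : ℕ → Type) := ∀ k, G X k

variable {B : Type} [Group B] (r : ∀ k, B →* X k)

def Cp (γ : W X) : Prop := ∀ k, rt (γ (k + 1)) = γ k

def Tail (n : ℕ) (γ : W X) (F : ∀ k, G X k → B) : Prop :=
  ∀ k, n ≤ k → (∀ x, lf (γ (k + 1)) x = r k (F k x)) ∧ ∀ y, F (k + 1) y = F k (rt y)

lemma Cp.mul {γ δ : W X} (h : Cp γ) (h' : Cp δ) : Cp (γ * δ) := fun k => by
  simp only [Pi.mul_apply, map_mul, h k, h' k]

lemma Cp.inv {γ : W X} (h : Cp γ) : Cp γ⁻¹ := fun k => by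
  simp only [Pi.inv_apply, map_inv, h k]

lemma Tail.mul {n : ℕ} {γ δ : W X} {F F' : ∀ k, G X k → B} (c : Cp γ) (h : Tail r n γ F)
    (h' : Tail r n δ F') : Tail r n (γ * δ) fun k x => F k x * F' k ((γ k)⁻¹ * x) := by
  intro k hk
  refine ⟨fun x => ?_, fun y => ?_⟩
  · rw [Pi.mul_apply, lf_mul, (h k hk).1, (h' k hk).1, c k, map_mul]
  · simp only [(h k hk).2, (h' k hk).2, map_mul, map_inv, c k]

lemma Tail.inv {n : ℕ} {γ : W X} {F : ∀ k, G X k → B} (c : Cp γ) (h : Tail r n γ F) :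
    Tail r n γ⁻¹ fun k x => (F k (γ k * x))⁻¹ := by
  intro k hk
  refine ⟨fun x => ?_, fun y => ?_⟩
  · rw [Pi.inv_apply, lf_inv, (h k hk).1, c k, map_inv]
  · simp only [(h k hk).2, map_mul, c k]

def Hn (n : ℕ) : Subgroup (W X) where
  carrier := {γ | Cp γ ∧ ∃ F, Tail r n γ F}
  one_mem' := ⟨fun k => map_one _, fun _ _ => 1, fun k _ => ⟨fun x => by
    rw [map_one]; rfl, fun _ => rfl⟩⟩
  mul_mem' := fun ⟨c, _, h⟩ ⟨c', _, h'⟩ => ⟨c.mul c', _, h.mul r c h'⟩
  inv_mem' := fun ⟨c, _, h⟩ => ⟨c.inv, _, h.inv r c⟩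

lemma Hn_mono : Monotone (Hn r) := fun _ _ hmn _ ⟨c, F, h⟩ => ⟨c, F, fun k hk => h k (hmn.trans hk)⟩

def HH : Subgroup (W X) := ⨆ n, Hn r n

lemma mem_HH (γ : W X) : γ ∈ HH r ↔ ∃ n, γ ∈ Hn r n :=
  Subgroup.mem_iSup_of_directed (Hn_mono r).directed_le

lemma Cp.down {γ : W X} (c : Cp γ) {n : ℕ} (h : γ n = 1) : ∀ k, k ≤ n → γ k = 1 := by
  induction n with
  | zero => intro k hk; obtain rfl : k = 0 := by omega
            exact h
  | succ n ih =>
    intro k hk
    rcases Nat.lt_or_ge k (n + 1) with h1 | h1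
    · exact ih (by rw [← c n, h, map_one]) k (by omega)
    · obtain rfl : k = n + 1 := by omega
      exact h

def acc (D : ∀ k, G X k → B) : ∀ k, G X k → B
  | 0 => D 0
  | k + 1 => fun y => D (k + 1) y * acc D k (rt y)

def tg (F : ∀ k, G X k → B) : ∀ k, G X k
  | 0 => 1
  | k + 1 => mk (fun x => r k (F k x)) (tg F k)

noncomputable def tf (n : ℕ) (f : G X n → B) : ∀ k, G X k → B :=
  acc (Pi.mulSingle (M := fun k => G X k → B) n f)

lemma tf_lt (n : ℕ) (f : G X n → B) : ∀ k, k < n → ∀ x, tf n f k x = 1 := by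
  intro k
  induction k with
  | zero =>
    intro h x
    simp only [tf, acc]
    rw [Pi.mulSingle_eq_of_ne h.ne]; rfl
  | succ k ih =>
    intro h x
    have := ih (by omega) (rt x)
    simp only [tf, acc] at this ⊢
    rw [Pi.mulSingle_eq_of_ne h.ne, this]; simp

lemma tf_self (n : ℕ) (f : G X n → B) (x : G X n) : tf n f n x = f x := by
  cases n with
  | zero => simp only [tf, acc, Pi.mulSingle_eq_same]
  | succ n =>
    have := tf_lt (n + 1) f n (by omega) (rt x)
    simp only [tf, acc, Pi.mulSingle_eq_same] at this ⊢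
    rw [this, mul_one]

lemma tf_succ (n : ℕ) (f : G X n → B) (k : ℕ) (h : n ≤ k) (y : G X (k + 1)) :
    tf n f (k + 1) y = tf n f k (rt y) := by
  simp only [tf, acc]
  rw [Pi.mulSingle_eq_of_ne (by omega)]; simp

lemma tf_mul (n : ℕ) (f g : G X n → B) (k : ℕ) : ∀ x, tf n (f * g) k x = tf n f k x * tf n g k x := by
  rcases Nat.lt_or_ge k n with h | h
  · intro x; simp [tf_lt n _ k h]
  · induction k, h using Nat.le_induction with
    | base => intro x; simp [tf_self]
    | succ k h ih => intro x; simp only [tf_succ n _ k h, ih]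

lemma tf_shift (n : ℕ) (f : G X n → B) {γ : W X} (c : Cp γ) (h1 : γ n = 1) (k : ℕ) :
    ∀ x, tf n f k ((γ k)⁻¹ * x) = tf n f k x := by
  rcases Nat.lt_or_ge k n with h | h
  · intro x; simp [tf_lt n _ k h]
  · induction k, h using Nat.le_induction with
    | base => intro x; simp [h1]
    | succ k h ih => intro x; simp only [tf_succ n _ k h, map_mul, map_inv, c k, ih]

lemma tg_cp (F : ∀ k, G X k → B) : Cp (tg r F) := fun _ => rfl

lemma tg_le (n : ℕ) (f : G X n → B) : ∀ k, k ≤ n → tg r (tf n f) k = 1 := by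
  intro k
  induction k with
  | zero => intro _; rfl
  | succ k ih =>
    intro h
    refine G_ext _ _ (fun x => ?_) ?_
    · simp only [tg, lf_mk, tf_lt n f k (by omega), map_one, lf_one]
    · simp only [tg, rt_mk, ih (by omega), map_one]

noncomputable def T (n : ℕ) : (G X n → B) →* W X :=
  MonoidHom.mk' (fun f => tg r (tf n f)) fun f g => by
    funext k
    induction k with
    | zero => rfl
    | succ k ih =>
      refine G_ext _ _ (fun x => ?_) ?_
      · rw [Pi.mul_apply, lf_mul, tg_cp]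
        simp only [tg, lf_mk, tf_mul, map_mul]
        rw [tf_shift n g (tg_cp r _) (tg_le r n f n le_rfl)]
      · rw [Pi.mul_apply, map_mul, tg_cp, tg_cp, tg_cp, ih, Pi.mul_apply]

lemma T_cp (n : ℕ) (f : G X n → B) : Cp (T r n f) := tg_cp r _
lemma T_le (n : ℕ) (f : G X n → B) (k : ℕ) (h : k ≤ n) : T r n f k = 1 := tg_le r n f k h
lemma T_lf (n : ℕ) (f : G X n → B) (k : ℕ) (x : G X k) :
    lf (T r n f (k + 1)) x = r k (tf n f k x) := rfl
lemma T_tail (n : ℕ) (f : G X n → B) : Tail r n (T r n f) (tf n f) :=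
  fun k hk => ⟨T_lf r n f k, tf_succ n f k hk⟩
lemma T_mem (n : ℕ) (f : G X n → B) : T r n f ∈ Hn r n := ⟨T_cp r n f, _, T_tail r n f⟩

lemma eq_T {n : ℕ} {γ : W X} {F : ∀ k, G X k → B} (c : Cp γ) (h : Tail r n γ F) (h1 : γ n = 1) :
    γ = T r n (F n) := by
  have e : ∀ k, n ≤ k → ∀ x, tf n (F n) k x = F k x := by
    intro k hk
    induction k, hk using Nat.le_induction with
    | base => exact tf_self n _
    | succ k hk ih => intro x; rw [tf_succ n _ k hk, ih, (h k hk).2]
  funext k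
  rcases le_total k n with hk | hk
  · rw [c.down h1 k hk, T_le r n _ k hk]
  · induction k, hk using Nat.le_induction with
    | base => rw [h1, T_le r n _ n le_rfl]
    | succ k hk ih =>
      refine G_ext _ _ (fun x => ?_) ?_
      · rw [T_lf, e k hk, (h k hk).1]
      · rw [c k, T_cp, ih]

lemma T_in (hperf : commutator B = ⊤) [∀ k, Finite (X k)] (M : Subgroup (W X)) (n : ℕ)
    (hM : ∀ f, ∀ m ∈ M, T r n f * m * (T r n f)⁻¹ ∈ M) (g : W X) (hg : g ∈ M) (hn : g ∈ Hn r n)
    (h1 : g n ≠ 1) (f : G X n → B) : T r n f ∈ M := by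
  obtain ⟨c, F, h⟩ := hn
  refine Subgroup.pi_mem_of_mulSingle_mem (H := M.comap (T r n)) f fun l => ?_
  have : commutator B ≤ (M.comap (T r n)).comap (MonoidHom.mulSingle (fun _ : G X n => B) l) := by
    rw [commutator_def, Subgroup.commutator_le]
    intro a _ b _
    set s : G X n → B := Pi.mulSingle l a⁻¹ with hs
    set t : G X n → B := Pi.mulSingle l b with ht
    have e := eq_T r ((c.mul (T_cp r n s)).mul c.inv)
      (((h.mul r c (T_tail r n s))).mul r (c.mul (T_cp r n s)) (h.inv r c))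
      (by simp [T_le r n s n le_rfl])
    set u : G X n → B := fun x => F n x * tf n s n ((g n)⁻¹ * x) *
      (F n (g n * (((g * T r n s) n)⁻¹ * x)))⁻¹ with hu
    have u1 : u l = 1 := by
      have : (g n)⁻¹ * l ≠ l := by simpa using h1
      have s1 : s ((g n)⁻¹ * l) = 1 := Pi.mulSingle_eq_of_ne this _
      simp [hu, tf_self, T_le r n s n le_rfl, s1]
    have m1 : T r n (u * s⁻¹) ∈ M := by
      rw [map_mul, map_inv, ← e, mul_assoc, mul_assoc, ← mul_assoc (T r n s)]
      exact mul_mem hg (hM s _ (inv_mem hg))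
    have m2 : T r n ⁅u * s⁻¹, t⁆ ∈ M := by
      rw [map_commutatorElement, commutatorElement_def, mul_assoc, mul_assoc,
        ← mul_assoc (T r n t)]
      exact mul_mem m1 (hM t _ (inv_mem m1))
    have e2 : ⁅u * s⁻¹, t⁆ = Pi.mulSingle l ⁅a, b⁆ := by
      funext x
      by_cases hx : x = l
      · subst hx
        simp [commutatorElement_def, hs, ht, u1]
      · simp [commutatorElement_def, hs, ht, Pi.mulSingle_eq_of_ne hx]
    rw [e2] at m2
    exact m2
  exact this (by rw [hperf]; trivial)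

theorem main (hperf : commutator B = ⊤) [∀ k, Finite (X k)] (hr : ∀ k, Function.Surjective (r k))
    (M : Subgroup (W X)) (hle : M ≤ HH r) (hne : M ≠ ⊥) (n : ℕ)
    (hM : ∀ h ∈ HH r, h n = 1 → ∀ m ∈ M, h * m * h⁻¹ ∈ M) :
    ∃ m, ∀ h ∈ HH r, h m = 1 → h ∈ M := by
  obtain ⟨g, hg, g1⟩ : ∃ g ∈ M, g ≠ 1 := by
    by_contra hc
    push Not at hc
    exact hne ((Subgroup.eq_bot_iff_forall _).2 hc)
  obtain ⟨k, hk⟩ := (mem_HH r g).1 (hle hg)
  obtain ⟨j, hj⟩ : ∃ j, g j ≠ 1 := by
    by_contra hc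
    push Not at hc
    exact g1 (funext hc)
  have A : ∀ i, n + k + j ≤ i → ∀ f, T r i f ∈ M := by
    intro i hi
    refine T_in r hperf M i (fun f => hM _ ((mem_HH r _).2 ⟨i, T_mem r i f⟩) (T_le r i f n (by omega)))
      g hg (Hn_mono r (by omega) hk) fun h => hj (hk.1.down h j (by omega))
  have Bd : ∀ d i, n + k + j ≤ i → ∀ h ∈ Hn r (i + d), h i = 1 → h ∈ M := by
    intro d
    induction d with
    | zero =>
      rintro i hi h ⟨c, F, hF⟩ h1
      rw [eq_T r c hF h1]
      exact A i hi _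
    | succ d ih =>
      intro i hi h hh h1
      choose s hs using hr i
      let f : G X i → B := fun x => s (lf (h (i + 1)) x)
      have e : T r i f (i + 1) = h (i + 1) := by
        refine G_ext _ _ (fun x => ?_) ?_
        · rw [T_lf, tf_self, hs]
        · rw [T_cp, hh.1 i, h1, T_le r i f i le_rfl]
      have := ih (i + 1) (by omega) ((T r i f)⁻¹ * h)
        (mul_mem (inv_mem (Hn_mono r (by omega) (T_mem r i f))) (Hn_mono r (by omega) hh))
        (by simp [e])
      simpa using mul_mem (A i hi f) this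
  refine ⟨n + k + j, fun h hh h1 => ?_⟩
  obtain ⟨d, hd⟩ := (mem_HH r h).1 hh
  exact Bd d _ le_rfl h (Hn_mono r (by omega) hd) h1

noncomputable def emb : B →* HH r :=
  ((T r 0).comp (Pi.constMonoidHom (G X 0) B)).codRestrict _ fun _ => (mem_HH r _).2 ⟨0, T_mem r 0 _⟩

lemma emb_inj (hsep : ∀ b, b ≠ 1 → ∃ k, r k b ≠ 1) : Function.Injective (emb r) := by
  rw [injective_iff_map_eq_one]
  intro b hb
  by_contra hc
  obtain ⟨k, hk⟩ := hsep b hc
  apply hk
  have e : ∀ k x, tf 0 (Function.const (G X 0) b) k x = b := by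
    intro k
    induction k with
    | zero => intro x; rw [tf_self]; rfl
    | succ k ih => intro x; rw [tf_succ 0 _ k (by omega), ih]
  have h1 : T r 0 (Function.const (G X 0) b) = 1 := congrArg Subtype.val hb
  have := T_lf r 0 (Function.const (G X 0) b) k 1
  rw [h1, e] at this
  exact this.symm

theorem hji (hperf : commutator B = ⊤) [∀ k, Finite (X k)] (hr : ∀ k, Function.Surjective (r k))
    [Infinite (HH r)] (U : Subgroup (HH r)) [U.FiniteIndex] (M : Subgroup U) (hM : M.Normal)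
    (hne : M ≠ ⊥) : M.FiniteIndex := by
  obtain ⟨n, hn⟩ := main r hperf hr (U.normalCore.map (HH r).subtype) (Subgroup.map_subtype_le _)
    (by
      rw [Ne, Subgroup.map_eq_bot_iff_of_injective _ Subtype.val_injective]
      intro h
      have : (⊥ : Subgroup (HH r)).FiniteIndex := h ▸ inferInstance
      exact this.index_ne_zero (by simp)) 0
    (by
      rintro h hh - _ ⟨m, hm, rfl⟩
      exact ⟨_, U.normalCore_normal.conj_mem m hm ⟨h, hh⟩, rfl⟩)
  obtain ⟨m, hm⟩ := main r hperf hr ((M.map U.subtype).map (HH r).subtype)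
    (Subgroup.map_subtype_le _)
    (by
      rw [Ne, Subgroup.map_eq_bot_iff_of_injective _ Subtype.val_injective,
        Subgroup.map_eq_bot_iff_of_injective _ Subtype.val_injective]
      exact hne) n
    (by
      rintro h hh h1 _ ⟨_, ⟨m, hm, rfl⟩, rfl⟩
      obtain ⟨u, hu, rfl⟩ := hn h hh h1
      exact ⟨_, ⟨_, hM.conj_mem m hm ⟨u, U.normalCore_le hu⟩, rfl⟩, rfl⟩)
  have : (((Pi.evalMonoidHom (G X) m).comp (HH r).subtype).comp U.subtype).ker ≤ M := by
    intro u hu
    obtain ⟨_, ⟨v, hv, rfl⟩, e⟩ := hm u.1.1 u.1.2 hu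
    have : v = u := Subtype.ext (Subtype.ext e)
    exact this ▸ hv
  exact Subgroup.finiteIndex_of_le this

theorem resfin [∀ k, Finite (X k)] (g : HH r) (hg : g ≠ 1) :
    ∃ N : Subgroup (HH r), N.Normal ∧ N.FiniteIndex ∧ g ∉ N := by
  obtain ⟨j, hj⟩ : ∃ j, g.1 j ≠ 1 := by
    by_contra hc
    push Not at hc
    exact hg (Subtype.ext (funext hc))
  exact ⟨((Pi.evalMonoidHom (G X) j).comp (HH r).subtype).ker, inferInstance, inferInstance, hj⟩

end Pool.Agent.H.MP_ae5711_al
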